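import Pool.Agent.H.MP_b3c6db_nt.Defs

/-! Square-frequency cosine polynomials with few non-zero coefficients. -/

namespace Pool.Agent.H.MP_b3c6db_nt

/-- `deltaSp n H` is the infimum of the constant terms of the admissible polynomials of which at
most `n` of the coefficients `c 1, ..., c H` are non-zero. -/
noncomputable def deltaSp (n H : ℕ) : ℝ :=
  sInf {a : ℝ | ∃ c : ℕ → ℝ, Admissible H c ∧
    ((Finset.Icc 1 H).filter (fun k => c k ≠ 0)).card ≤ n ∧ c 0 = a}

end Pool.Agent.H.MP_b3c6db_nt
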