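import Mathlib

/-! Choice of `n` terms that represent a mean on a finite set of points. -/

set_option autoImplicit false

namespace Pool.Agent.H.MP_b3c6db_nt

open Finset

private lemma Greedy_exp (y : ℝ) : Real.exp y ≤ y + Real.exp (y ^ 2) := by
  have h1 : y ^ 2 + 1 ≤ Real.exp (y ^ 2) := Real.add_one_le_exp _
  rcases le_or_gt |y| 1 with h | h
  · have h2 := Real.abs_exp_sub_one_sub_id_le h
    have h3 := (abs_le.1 h2).2
    linarith
  · rcases lt_abs.1 h with h2 | h2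
    · have h3 : Real.exp y ≤ Real.exp (y ^ 2) := Real.exp_le_exp.2 (by nlinarith)
      linarith
    · have h3 : Real.exp y ≤ 1 := Real.exp_le_one_iff.2 (by linarith)
      nlinarith

private lemma Greedy_mean {ι : Type*} (S : Finset ι) (p y : ι → ℝ) (hp : ∀ k ∈ S, 0 < p k)
    (hs : ∑ k ∈ S, p k = 1) (hy : ∀ k ∈ S, |y k| ≤ 2) (hm : ∑ k ∈ S, p k * y k = 0) (t : ℝ) :
    ∑ k ∈ S, p k * Real.exp (t * y k) ≤ Real.exp (4 * t ^ 2) := by
  have h1 : ∀ k ∈ S, p k * Real.exp (t * y k) ≤ t * (p k * y k) + p k * Real.exp (4 * t ^ 2) := by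
    intro k hk
    have h2 : Real.exp (t * y k) ≤ t * y k + Real.exp (4 * t ^ 2) := by
      refine (Greedy_exp _).trans ?_
      have h3 : (t * y k) ^ 2 ≤ 4 * t ^ 2 := by
        have h4 : y k ^ 2 ≤ 4 := by
          have := abs_le.1 (hy k hk)
          nlinarith
        nlinarith [sq_nonneg t]
      have := Real.exp_le_exp.2 h3
      linarith
    nlinarith [hp k hk]
  calc _ ≤ ∑ k ∈ S, (t * (p k * y k) + p k * Real.exp (4 * t ^ 2)) := sum_le_sum h1
    _ = Real.exp (4 * t ^ 2) := by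
      rw [sum_add_distrib, ← mul_sum, ← sum_mul, hm, hs]
      ring

private lemma Greedy_step {ι : Type*} (S : Finset ι) (hS : S.Nonempty) (p : ι → ℝ)
    (hp : ∀ k ∈ S, 0 < p k) (hs : ∑ k ∈ S, p k = 1) (N : ℕ) (Y : ι → ℕ → ℝ)
    (hY : ∀ k ∈ S, ∀ x ∈ range N, |Y k x| ≤ 2) (hm : ∀ x ∈ range N, ∑ k ∈ S, p k * Y k x = 0)
    (t : ℝ) (D : ℕ → ℝ) :
    ∃ k ∈ S, ∑ x ∈ range N, (Real.exp (t * (D x + Y k x)) + Real.exp (-(t * (D x + Y k x)))) ≤
      Real.exp (4 * t ^ 2) * ∑ x ∈ range N, (Real.exp (t * D x) + Real.exp (-(t * D x))) := by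
  obtain ⟨B, hB⟩ : ∃ B : ℝ, B = Real.exp (4 * t ^ 2) *
    ∑ x ∈ range N, (Real.exp (t * D x) + Real.exp (-(t * D x))) := ⟨_, rfl⟩
  have h1 : ∑ k ∈ S, p k * ∑ x ∈ range N,
      (Real.exp (t * (D x + Y k x)) + Real.exp (-(t * (D x + Y k x)))) ≤ ∑ k ∈ S, p k * B := by
    rw [← sum_mul, hs, one_mul]
    calc _ = ∑ x ∈ range N, (Real.exp (t * D x) * ∑ k ∈ S, p k * Real.exp (t * Y k x) +
          Real.exp (-(t * D x)) * ∑ k ∈ S, p k * Real.exp ((-t) * Y k x)) := by
          simp only [mul_sum]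
          rw [sum_comm]
          refine sum_congr rfl fun x _ => ?_
          rw [← sum_add_distrib]
          refine sum_congr rfl fun k _ => ?_
          rw [show -(t * (D x + Y k x)) = -(t * D x) + (-t) * Y k x by ring,
            show t * (D x + Y k x) = t * D x + t * Y k x by ring, Real.exp_add, Real.exp_add]
          ring
      _ ≤ ∑ x ∈ range N, (Real.exp (t * D x) * Real.exp (4 * t ^ 2) +
          Real.exp (-(t * D x)) * Real.exp (4 * t ^ 2)) := by
          refine sum_le_sum fun x hx => ?_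
          have h2 := Greedy_mean S p (fun k => Y k x) hp hs (fun k hk => hY k hk x hx) (hm x hx) t
          have h3 := Greedy_mean S p (fun k => Y k x) hp hs (fun k hk => hY k hk x hx) (hm x hx)
            (-t)
          rw [neg_sq] at h3
          exact add_le_add (mul_le_mul_of_nonneg_left h2 (Real.exp_pos _).le)
            (mul_le_mul_of_nonneg_left h3 (Real.exp_pos _).le)
      _ = B := by
          rw [hB, mul_sum]
          exact sum_congr rfl fun x _ => by ring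
  obtain ⟨k, hk, h2⟩ := exists_le_of_sum_le hS h1
  rw [hB] at h2
  exact ⟨k, hk, le_of_mul_le_mul_left h2 (hp k hk)⟩

private lemma Greedy_ind {ι : Type*} (S : Finset ι) (hS : S.Nonempty) (p : ι → ℝ)
    (hp : ∀ k ∈ S, 0 < p k) (hs : ∑ k ∈ S, p k = 1) (N : ℕ) (Y : ι → ℕ → ℝ)
    (hY : ∀ k ∈ S, ∀ x ∈ range N, |Y k x| ≤ 2) (hm : ∀ x ∈ range N, ∑ k ∈ S, p k * Y k x = 0)
    (t : ℝ) (n : ℕ) :
    ∃ f : ℕ → ι, (∀ l ∈ range n, f l ∈ S) ∧
      ∑ x ∈ range N, (Real.exp (t * ∑ l ∈ range n, Y (f l) x) +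
        Real.exp (-(t * ∑ l ∈ range n, Y (f l) x))) ≤ Real.exp (4 * t ^ 2) ^ n * (2 * N) := by
  induction n with
  | zero =>
    obtain ⟨k, hk⟩ := hS
    refine ⟨fun _ => k, by simp, ?_⟩
    refine le_of_eq ?_
    have h0 : ∀ x ∈ range N, (Real.exp (t * ∑ l ∈ range 0, Y ((fun _ => k) l) x) +
        Real.exp (-(t * ∑ l ∈ range 0, Y ((fun _ => k) l) x))) = 2 := by
      intro x _
      rw [range_zero, sum_empty, mul_zero, neg_zero, Real.exp_zero]
      norm_num
    rw [sum_congr rfl h0, sum_const, card_range, nsmul_eq_mul, pow_zero, one_mul, mul_comm]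
  | succ n ih =>
    obtain ⟨f, hf, h⟩ := ih
    obtain ⟨k, hk, h2⟩ := Greedy_step S hS p hp hs N Y hY hm t (fun x => ∑ l ∈ range n, Y (f l) x)
    refine ⟨fun l => if l = n then k else f l, ?_, ?_⟩
    · intro l hl
      by_cases hln : l = n
      · simpa [hln] using hk
      · have h3 : l ∈ range n := by
          rw [mem_range] at hl ⊢
          omega
        simpa [hln] using hf l h3
    · have h3 : ∀ x, ∑ l ∈ range (n + 1), Y (if l = n then k else f l) x =
          ∑ l ∈ range n, Y (f l) x + Y k x := by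
        intro x
        rw [sum_range_succ, if_pos rfl]
        congr 1
        refine sum_congr rfl fun l hl => ?_
        rw [if_neg (by have := mem_range.1 hl; omega)]
      simp only [h3]
      refine h2.trans ?_
      calc Real.exp (4 * t ^ 2) * _ ≤ Real.exp (4 * t ^ 2) * (Real.exp (4 * t ^ 2) ^ n * (2 * N)) :=
            mul_le_mul_of_nonneg_left h (Real.exp_pos _).le
        _ = _ := by ring

/-- From a weighted mean that vanishes at each of `N` points one can choose `n` terms whose sum is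
small at each of these points. -/
theorem greedy_choice {ι : Type*} (S : Finset ι) (hS : S.Nonempty) (p : ι → ℝ)
    (hp : ∀ k ∈ S, 0 < p k) (hs : ∑ k ∈ S, p k = 1) (N : ℕ) (Y : ι → ℕ → ℝ)
    (hY : ∀ k ∈ S, ∀ x ∈ range N, |Y k x| ≤ 2) (hm : ∀ x ∈ range N, ∑ k ∈ S, p k * Y k x = 0)
    (t : ℝ) (ht : 0 < t) (n : ℕ) :
    ∃ f : ℕ → ι, (∀ l ∈ range n, f l ∈ S) ∧
      ∀ x ∈ range N, t * |∑ l ∈ range n, Y (f l) x| ≤ n * (4 * t ^ 2) + Real.log (2 * N) := by
  obtain ⟨f, hf, h⟩ := Greedy_ind S hS p hp hs N Y hY hm t n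
  refine ⟨f, hf, fun x hx => ?_⟩
  have hN : (0 : ℝ) < N := by
    have := mem_range.1 hx
    exact_mod_cast (by omega : 0 < N)
  have h1 : Real.exp (t * ∑ l ∈ range n, Y (f l) x) +
      Real.exp (-(t * ∑ l ∈ range n, Y (f l) x)) ≤ Real.exp (4 * t ^ 2) ^ n * (2 * N) := by
    refine le_trans ?_ h
    exact single_le_sum (f := fun x => Real.exp (t * ∑ l ∈ range n, Y (f l) x) +
      Real.exp (-(t * ∑ l ∈ range n, Y (f l) x))) (fun y _ => by positivity) hx
  have h2 : Real.exp (4 * t ^ 2) ^ n * (2 * N) = Real.exp (n * (4 * t ^ 2) + Real.log (2 * N)) := by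
    rw [Real.exp_add, Real.exp_log (by positivity), ← Real.exp_nat_mul]
  rw [h2] at h1
  have h3 : t * ∑ l ∈ range n, Y (f l) x ≤ n * (4 * t ^ 2) + Real.log (2 * N) := by
    apply Real.exp_le_exp.1
    linarith [Real.exp_pos (-(t * ∑ l ∈ range n, Y (f l) x))]
  have h4 : -(t * ∑ l ∈ range n, Y (f l) x) ≤ n * (4 * t ^ 2) + Real.log (2 * N) := by
    apply Real.exp_le_exp.1
    linarith [Real.exp_pos (t * ∑ l ∈ range n, Y (f l) x)]
  have h5 : t * |∑ l ∈ range n, Y (f l) x| = |t * ∑ l ∈ range n, Y (f l) x| := by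
    rw [abs_mul, abs_of_pos ht]
  rw [h5, abs_le]
  exact ⟨by linarith, h3⟩

end Pool.Agent.H.MP_b3c6db_nt
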