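import Pool.Agent.H.MP_b3c6db_nt.NF.Defs
import Pool.Agent.H.MP_b3c6db_nt.NC.LowC
import Pool.Agent.H.MP_b3c6db_nt.Coeff
import Pool.Agent.H.MP_b3c6db_nt.LowerFinal

/-! The lower bound for polynomials with at most `n` nonzero coefficients.

PROOF. `a` from `nc_l1`. `|c k| ≤ 2 c 0` (`coeff_bound`), so `∑ |c k| ≤ c 0 + n * 2 * c 0 ≤ 3 n c 0`,
`a / log H ≤ 3 n (c 0)^2` and `c 0 ≥ √(a/3) / √(n log H)`. -/

set_option autoImplicit false

namespace Pool.Agent.H.MP_b3c6db_nt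

open Finset

private lemma Low_core : ∃ a : ℝ, 0 < a ∧ ∀ H : ℕ, 2 ≤ H → ∀ n : ℕ, 1 ≤ n → ∀ c : ℕ → ℝ,
    Admissible H c → ((Finset.Icc 1 H).filter (fun k => c k ≠ 0)).card ≤ n →
      a / Real.sqrt (n * Real.log H) ≤ c 0 := by
  obtain ⟨a, ha, h⟩ := nc_l1
  refine ⟨Real.sqrt (a / 3), Real.sqrt_pos.2 (by positivity), fun H hH n hn c hc hcard => ?_⟩
  have hH2 : (2 : ℝ) ≤ H := by exact_mod_cast hH
  have hl : 0 < Real.log H := Real.log_pos (by linarith)
  have hn1 : (1 : ℝ) ≤ n := by exact_mod_cast hn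
  have h0 : 0 ≤ c 0 := cosPoly_zero_nonneg H c hc
  have h1 := h H hH c hc
  have h2 : Finset.range (H + 1) = insert 0 (Finset.Icc 1 H) := by
    ext k
    rw [Finset.mem_insert, Finset.mem_range, Finset.mem_Icc]
    omega
  have h3 : (0 : ℕ) ∉ Finset.Icc 1 H := by
    rw [Finset.mem_Icc]
    omega
  have h4 : ∑ k ∈ Finset.Icc 1 H, |c k| ≤ n * (2 * c 0) := by
    have h5 : ∑ k ∈ Finset.Icc 1 H, |c k| =
        ∑ k ∈ (Finset.Icc 1 H).filter (fun k => c k ≠ 0), |c k| := by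
      rw [Finset.sum_filter]
      refine Finset.sum_congr rfl fun k _ => ?_
      split_ifs with hk
      · rfl
      · rw [not_not.1 hk, abs_zero]
    rw [h5]
    calc ∑ k ∈ (Finset.Icc 1 H).filter (fun k => c k ≠ 0), |c k|
        ≤ ∑ _k ∈ (Finset.Icc 1 H).filter (fun k => c k ≠ 0), 2 * c 0 := by
          refine Finset.sum_le_sum fun k hk => ?_
          rw [Finset.mem_filter, Finset.mem_Icc] at hk
          exact coeff_bound H c hc.1 k (by omega) hk.1.2
      _ = ((Finset.Icc 1 H).filter (fun k => c k ≠ 0)).card * (2 * c 0) := by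
          rw [Finset.sum_const, nsmul_eq_mul]
      _ ≤ n * (2 * c 0) := by
          refine mul_le_mul_of_nonneg_right ?_ (by linarith)
          exact_mod_cast hcard
  have h5 : ∑ k ∈ Finset.range (H + 1), |c k| ≤ 3 * n * c 0 := by
    rw [h2, Finset.sum_insert h3, abs_of_nonneg h0]
    nlinarith
  have h6 : a / Real.log H ≤ 3 * n * c 0 ^ 2 := by
    calc a / Real.log H ≤ c 0 * ∑ k ∈ Finset.range (H + 1), |c k| := h1
      _ ≤ c 0 * (3 * n * c 0) := mul_le_mul_of_nonneg_left h5 h0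
      _ = 3 * n * c 0 ^ 2 := by ring
  have hnl : 0 < (n : ℝ) * Real.log H := by positivity
  rw [← Real.sqrt_div (by positivity)]
  refine Real.sqrt_le_iff.2 ⟨h0, ?_⟩
  rw [div_le_iff₀ hl] at h6
  rw [div_div, div_le_iff₀ (by positivity)]
  nlinarith

theorem deltaSp_lower : ∃ c : ℝ, 0 < c ∧ ∀ H : ℕ, 2 ≤ H → ∀ n : ℕ, 1 ≤ n →
    c / Real.sqrt (n * Real.log H) ≤ deltaSp n H := by
  obtain ⟨a, ha, h⟩ := Low_core
  refine ⟨a, ha, fun H hH n hn => ?_⟩
  unfold deltaSp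
  refine le_csInf ⟨1, fun k => if k = 0 then 1 else 0, admissible_trivial H, ?_, by simp⟩ ?_
  · have h1 : (Finset.Icc 1 H).filter (fun k => (if k = 0 then (1 : ℝ) else 0) ≠ 0) = ∅ := by
      refine Finset.filter_eq_empty_iff.2 fun k hk => ?_
      rw [Finset.mem_Icc] at hk
      rw [if_neg (by omega)]
      simp
    rw [h1, Finset.card_empty]
    exact Nat.zero_le n
  · rintro b ⟨c, hc, hcard, rfl⟩
    exact h H hH n hn c hc hcard

end Pool.Agent.H.MP_b3c6db_nt
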