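import Pool.Agent.H.MP_b3c6db_nt.NF.Defs
import Pool.Agent.H.MP_b3c6db_nt.NF.Greedy
import Pool.Agent.H.MP_b3c6db_nt.Coeff

/-! Every admissible polynomial can be replaced by one with few terms. -/

set_option autoImplicit false

namespace Pool.Agent.H.MP_b3c6db_nt

open Finset

private lemma Samp_grid (H N : ℕ) (hN : 1 ≤ N) (x : ℝ) : ∃ m ∈ range N, ∀ k ∈ Icc 1 H,
    |Real.cos (2 * Real.pi * (k : ℝ) ^ 2 * x) -
      Real.cos (2 * Real.pi * (k : ℝ) ^ 2 * ((m : ℝ) / N))| ≤ 2 * Real.pi * (H : ℝ) ^ 2 / N := by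
  have hN0 : (0 : ℝ) < N := by exact_mod_cast hN
  have hf0 := Int.fract_nonneg x
  have hf1 := Int.fract_lt_one x
  refine ⟨⌊Int.fract x * N⌋₊, ?_, fun k hk => ?_⟩
  · rw [mem_range, Nat.floor_lt (by positivity)]
    nlinarith
  · have h1 : Real.cos (2 * Real.pi * (k : ℝ) ^ 2 * x) =
        Real.cos (2 * Real.pi * (k : ℝ) ^ 2 * Int.fract x) := by
      have h2 : 2 * Real.pi * (k : ℝ) ^ 2 * x = 2 * Real.pi * (k : ℝ) ^ 2 * Int.fract x +
          (((k : ℤ) ^ 2 * ⌊x⌋ : ℤ) : ℝ) * (2 * Real.pi) := by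
        have h3 : x = Int.fract x + ⌊x⌋ := (Int.fract_add_floor x).symm
        conv_lhs => rw [h3]
        push_cast
        ring
      rw [h2, Real.cos_add_int_mul_two_pi]
    rw [h1]
    have h4 : |Int.fract x - (⌊Int.fract x * N⌋₊ : ℝ) / N| ≤ 1 / N := by
      have h5 : (⌊Int.fract x * N⌋₊ : ℝ) ≤ Int.fract x * N := Nat.floor_le (by positivity)
      have h6 : Int.fract x * N < ⌊Int.fract x * N⌋₊ + 1 := Nat.lt_floor_add_one _
      have h7 : (⌊Int.fract x * N⌋₊ : ℝ) / N ≤ Int.fract x := (div_le_iff₀ hN0).2 h5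
      have h8 : Int.fract x ≤ ((⌊Int.fract x * N⌋₊ : ℝ) + 1) / N := (le_div_iff₀ hN0).2 h6.le
      have h9 : 0 ≤ 1 / (N : ℝ) := by positivity
      rw [add_div] at h8
      rw [abs_le]
      constructor <;> linarith
    refine (Real.abs_cos_sub_cos_le _ _).trans ?_
    rw [← mul_sub, abs_mul, abs_of_nonneg (by positivity)]
    have hk2 := (mem_Icc.1 hk).2
    have hkH : (k : ℝ) ^ 2 ≤ (H : ℝ) ^ 2 := by
      have : (k : ℝ) ≤ H := by exact_mod_cast hk2
      exact pow_le_pow_left₀ (Nat.cast_nonneg k) this 2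
    calc 2 * Real.pi * (k : ℝ) ^ 2 * |Int.fract x - (⌊Int.fract x * N⌋₊ : ℝ) / N|
        ≤ 2 * Real.pi * (H : ℝ) ^ 2 * (1 / N) := by
          refine mul_le_mul ?_ h4 (abs_nonneg _) (by positivity)
          exact mul_le_mul_of_nonneg_left hkH (by positivity)
      _ = _ := by ring

private lemma Samp_r (H n : ℕ) (hH : 2 ≤ H) (hn : 1 ≤ n) (hHn : n < H) :
    Real.sqrt (Real.log (2 * ((8 * H ^ 3 : ℕ) : ℝ)) / n) ≤ 3 * Real.sqrt (Real.log H / n) ∧
    2 * Real.pi * (H : ℝ) ^ 2 / ((8 * H ^ 3 : ℕ) : ℝ) ≤ 2 * Real.sqrt (Real.log H / n) ∧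
    0 < Real.log (2 * ((8 * H ^ 3 : ℕ) : ℝ)) := by
  have hH2 : (2 : ℝ) ≤ H := by exact_mod_cast hH
  have hH0 : (0 : ℝ) < H := by linarith
  have hn1 : (1 : ℝ) ≤ n := by exact_mod_cast hn
  have hn0 : (0 : ℝ) < n := by linarith
  have hnH : (n : ℝ) ≤ H := by exact_mod_cast hHn.le
  have hl2 : 0.6931471803 < Real.log 2 := Real.log_two_gt_d9
  have hl : Real.log 2 ≤ Real.log H := Real.log_le_log (by norm_num) hH2
  have hq : Real.sqrt (Real.log H / n) ^ 2 = Real.log H / n :=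
    Real.sq_sqrt (div_nonneg (by linarith) hn0.le)
  have hq0 := Real.sqrt_nonneg (Real.log H / n)
  have hL : Real.log (2 * ((8 * H ^ 3 : ℕ) : ℝ)) = 4 * Real.log 2 + 3 * Real.log H := by
    push_cast
    rw [show (2 : ℝ) * (8 * (H : ℝ) ^ 3) = 2 ^ 4 * (H : ℝ) ^ 3 by ring,
      Real.log_mul (by norm_num) (by positivity), Real.log_pow, Real.log_pow]
    push_cast
    ring
  refine ⟨?_, ?_, ?_⟩
  · refine Real.sqrt_le_iff.2 ⟨by positivity, ?_⟩
    rw [mul_pow, hq, hL, ← mul_div_assoc]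
    exact div_le_div_of_nonneg_right (by linarith) hn0.le
  · have h1 : 2 * Real.pi * (H : ℝ) ^ 2 / ((8 * H ^ 3 : ℕ) : ℝ) = Real.pi / (4 * H) := by
      push_cast
      field_simp
      ring
    have h2 : Real.pi / (4 * H) ≤ 1 / H := by
      rw [div_le_div_iff₀ (by positivity) hH0]
      nlinarith [Real.pi_lt_four]
    have h3 : 1 / (H : ℝ) ≤ 2 * Real.sqrt (Real.log H / n) := by
      have h4 : (1 / (2 * (H : ℝ))) ≤ Real.sqrt (Real.log H / n) := by
        refine Real.le_sqrt_of_sq_le ?_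
        rw [div_pow, one_pow, div_le_div_iff₀ (by positivity) hn0]
        nlinarith
      have h5 : 1 / (H : ℝ) = 2 * (1 / (2 * (H : ℝ))) := by
        field_simp
      rw [h5]
      linarith
    rw [h1]
    exact h2.trans h3
  · rw [hL]
    linarith

theorem sparse_sample : ∃ C : ℝ, 0 < C ∧ ∀ H : ℕ, 2 ≤ H → ∀ c : ℕ → ℝ, Admissible H c →
    ∀ n : ℕ, 1 ≤ n → ∃ c' : ℕ → ℝ, Admissible H c' ∧
      ((Finset.Icc 1 H).filter (fun k => c' k ≠ 0)).card ≤ n ∧
      c' 0 ≤ c 0 + C * (∑ k ∈ Finset.Icc 1 H, |c k|) * Real.sqrt (Real.log H / n) := by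
  refine ⟨14, by norm_num, fun H hH c hc n hn => ?_⟩
  have hA0 : 0 ≤ ∑ k ∈ Icc 1 H, |c k| := sum_nonneg fun k _ => abs_nonneg _
  have hq0 := Real.sqrt_nonneg (Real.log H / n)
  rcases le_or_gt H n with hHn | hHn
  · refine ⟨c, hc, (card_filter_le _ _).trans (by simpa using hHn), ?_⟩
    have : 0 ≤ 14 * (∑ k ∈ Icc 1 H, |c k|) * Real.sqrt (Real.log H / n) := by positivity
    linarith
  obtain ⟨S, hSdef⟩ : ∃ S : Finset ℕ, S = (Icc 1 H).filter (fun k => c k ≠ 0) := ⟨_, rfl⟩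
  rcases S.eq_empty_or_nonempty with hS | hS
  · refine ⟨c, hc, ?_, ?_⟩
    · rw [← hSdef, hS]
      simp
    · have : 0 ≤ 14 * (∑ k ∈ Icc 1 H, |c k|) * Real.sqrt (Real.log H / n) := by positivity
      linarith
  obtain ⟨A, hA⟩ : ∃ A : ℝ, A = ∑ k ∈ Icc 1 H, |c k| := ⟨_, rfl⟩
  rw [← hA] at hA0 ⊢
  have hSI : S ⊆ Icc 1 H := hSdef ▸ filter_subset _ _
  have hSne : ∀ k ∈ S, c k ≠ 0 := by
    intro k hk
    rw [hSdef, mem_filter] at hk
    exact hk.2
  have hAS : ∑ k ∈ S, |c k| = A := by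
    rw [hA, hSdef]
    refine sum_filter_of_ne fun k _ hk => ?_
    intro h
    exact hk (by rw [h, abs_zero])
  have hApos : 0 < A := by
    rw [← hAS]
    exact sum_pos (fun k hk => abs_pos.2 (hSne k hk)) hS
  have hn0 : (0 : ℝ) < n := by exact_mod_cast hn
  obtain ⟨hr3, hg2, hLpos⟩ := Samp_r H n hH hn hHn
  obtain ⟨N, hN⟩ : ∃ N : ℕ, N = 8 * H ^ 3 := ⟨_, rfl⟩
  rw [← hN] at hr3 hg2 hLpos
  have hN1 : 1 ≤ N := by
    rw [hN]
    have : 0 < H ^ 3 := by positivity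
    omega
  obtain ⟨L, hL⟩ : ∃ L : ℝ, L = Real.log (2 * (N : ℝ)) := ⟨_, rfl⟩
  rw [← hL] at hr3 hLpos
  obtain ⟨r, hr⟩ : ∃ r : ℝ, r = Real.sqrt (L / n) := ⟨_, rfl⟩
  rw [← hr] at hr3
  have hrpos : 0 < r := by
    rw [hr]
    exact Real.sqrt_pos.2 (by positivity)
  have hLr : L = n * r ^ 2 := by
    rw [hr, Real.sq_sqrt (by positivity)]
    field_simp
  -- signs
  obtain ⟨s, hs⟩ : ∃ s : ℕ → ℝ, s = fun k => c k / |c k| := ⟨_, rfl⟩
  have hs1 : ∀ k, |s k| ≤ 1 := by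
    intro k
    rw [hs]
    simp only [abs_div, abs_abs]
    exact div_self_le_one _
  have hsc : ∀ k, |c k| * s k = c k := by
    intro k
    rw [hs]
    rcases eq_or_ne (c k) 0 with h | h
    · simp [h]
    · exact mul_div_cancel₀ _ (abs_ne_zero.2 h)
  obtain ⟨e, he⟩ : ∃ e : ℕ → ℕ → ℝ,
      e = fun (k m : ℕ) => Real.cos (2 * Real.pi * (k : ℝ) ^ 2 * ((m : ℝ) / N)) := ⟨_, rfl⟩
  have he1 : ∀ k m, |e k m| ≤ 1 := by
    intro k m
    rw [he]
    exact Real.abs_cos_le_one _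
  have hse : ∀ k m, |s k * e k m| ≤ 1 := by
    intro k m
    rw [abs_mul]
    exact mul_le_one₀ (hs1 k) (abs_nonneg _) (he1 k m)
  obtain ⟨p, hp⟩ : ∃ p : ℕ → ℝ, p = fun k => |c k| / A := ⟨_, rfl⟩
  have hp0 : ∀ k ∈ S, 0 < p k := by
    intro k hk
    rw [hp]
    exact div_pos (abs_pos.2 (hSne k hk)) hApos
  have hp1 : ∑ k ∈ S, p k = 1 := by
    rw [hp, ← sum_div, hAS, div_self hApos.ne']
  obtain ⟨μ, hμ⟩ : ∃ μ : ℕ → ℝ, μ = fun m => ∑ k ∈ S, p k * (s k * e k m) := ⟨_, rfl⟩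
  have hμ1 : ∀ m, |μ m| ≤ 1 := by
    intro m
    rw [hμ]
    calc |∑ k ∈ S, p k * (s k * e k m)| ≤ ∑ k ∈ S, |p k * (s k * e k m)| := abs_sum_le_sum_abs _ _
      _ ≤ ∑ k ∈ S, p k := by
          refine sum_le_sum fun k hk => ?_
          rw [abs_mul, abs_of_pos (hp0 k hk)]
          exact mul_le_of_le_one_right (hp0 k hk).le (hse k m)
      _ = 1 := hp1
  have hAμ : ∀ m : ℕ, A * μ m = cosPoly H c ((m : ℝ) / N) - c 0 := by
    intro m
    have h1 : cosPoly H c ((m : ℝ) / N) - c 0 = ∑ k ∈ Icc 1 H, c k * e k m := by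
      unfold cosPoly
      rw [he]
      ring
    have h2 : ∑ k ∈ S, c k * e k m = ∑ k ∈ Icc 1 H, c k * e k m := by
      rw [hSdef]
      refine sum_filter_of_ne fun k _ hk => ?_
      intro h
      exact hk (by rw [h, zero_mul])
    rw [h1, ← h2, hμ]
    simp only
    rw [mul_sum]
    refine sum_congr rfl fun k hk => ?_
    rw [hp]
    simp only
    have h3 : A * (|c k| / A * (s k * e k m)) = (|c k| * s k) * e k m := by
      field_simp
    rw [h3, hsc]
  obtain ⟨f, hf, hD⟩ := greedy_choice S hS p hp0 hp1 N (fun k m => s k * e k m - μ m)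
    (fun k _ m _ => by
      have h1 := abs_sub (s k * e k m) (μ m)
      linarith [hse k m, hμ1 m])
    (fun m _ => by
      simp only [mul_sub, sum_sub_distrib]
      rw [← sum_mul, hp1, hμ]
      ring)
    (r / 2) (by positivity) n
  rw [← hL] at hD
  obtain ⟨b, hb⟩ : ∃ b : ℕ → ℝ,
      b = fun k => A / n * ∑ l ∈ range n, (if f l = k then s k else 0) := ⟨_, rfl⟩
  have hR : ∀ g : ℕ → ℝ,
      ∑ k ∈ Icc 1 H, b k * g k = A / n * ∑ l ∈ range n, s (f l) * g (f l) := by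
    intro g
    rw [hb]
    simp only
    have h1 : ∀ k ∈ Icc 1 H, A / n * (∑ l ∈ range n, (if f l = k then s k else 0)) * g k =
        A / n * ∑ l ∈ range n, (if f l = k then s k * g k else 0) := by
      intro k _
      rw [mul_assoc, sum_mul]
      congr 1
      refine sum_congr rfl fun l _ => ?_
      split_ifs
      · rfl
      · rw [zero_mul]
    rw [sum_congr rfl h1, ← mul_sum, sum_comm]
    congr 1
    refine sum_congr rfl fun l hl => ?_
    rw [sum_ite_eq, if_pos (hSI (hf l hl))]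
  have hAn : 0 < A / n := div_pos hApos hn0
  have hgrid : ∀ m ∈ range N,
      |(c 0 + ∑ k ∈ Icc 1 H, b k * e k m) - cosPoly H c ((m : ℝ) / N)| ≤ 4 * A * r := by
    intro m hm
    have h1 := hD m hm
    rw [hR (fun k => e k m)]
    obtain ⟨X, hX⟩ : ∃ X : ℝ, X = ∑ l ∈ range n, s (f l) * e (f l) m := ⟨_, rfl⟩
    rw [← hX]
    rw [sum_sub_distrib, sum_const, card_range, nsmul_eq_mul, ← hX, hLr] at h1
    have h2 : r * |X - n * μ m| ≤ r * (4 * n * r) := by nlinarith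
    have h3 : |X - n * μ m| ≤ 4 * n * r := le_of_mul_le_mul_left h2 hrpos
    have h4 : (c 0 + A / n * X) - cosPoly H c ((m : ℝ) / N) = A / n * (X - n * μ m) := by
      have h5 := hAμ m
      have h6 : A / n * (X - n * μ m) = A / n * X - A * μ m := by
        field_simp
      rw [h6, h5]
      ring
    rw [h4, abs_mul, abs_of_pos hAn]
    calc A / n * |X - n * μ m| ≤ A / n * (4 * n * r) := mul_le_mul_of_nonneg_left h3 hAn.le
      _ = 4 * A * r := by field_simp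
  obtain ⟨δ, hδ⟩ : ∃ δ : ℝ, δ = 2 * Real.pi * (H : ℝ) ^ 2 / N := ⟨_, rfl⟩
  rw [← hδ] at hg2
  have hδ0 : 0 ≤ δ := by
    rw [hδ]
    positivity
  have hlip : ∀ x : ℝ, ∃ m ∈ range N,
      |∑ k ∈ Icc 1 H, b k * Real.cos (2 * Real.pi * (k : ℝ) ^ 2 * x) -
        ∑ k ∈ Icc 1 H, b k * e k m| ≤ A * δ := by
    intro x
    obtain ⟨m, hm, h1⟩ := Samp_grid H N hN1 x
    refine ⟨m, hm, ?_⟩
    rw [hR (fun k => e k m), hR (fun k => Real.cos (2 * Real.pi * (k : ℝ) ^ 2 * x))]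
    rw [← mul_sub, ← sum_sub_distrib, abs_mul, abs_of_pos hAn]
    have h2 : |∑ l ∈ range n, (s (f l) * Real.cos (2 * Real.pi * (f l : ℝ) ^ 2 * x) -
        s (f l) * e (f l) m)| ≤ n * δ := by
      calc _ ≤ ∑ l ∈ range n, |s (f l) * Real.cos (2 * Real.pi * (f l : ℝ) ^ 2 * x) -
            s (f l) * e (f l) m| := abs_sum_le_sum_abs _ _
        _ ≤ ∑ l ∈ range n, δ := by
            refine sum_le_sum fun l hl => ?_
            rw [← mul_sub, abs_mul]
            have h3 := h1 (f l) (hSI (hf l hl))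
            rw [← hδ] at h3
            have h4 : |s (f l)| * |Real.cos (2 * Real.pi * (f l : ℝ) ^ 2 * x) - e (f l) m| ≤
                1 * δ := by
              refine mul_le_mul (hs1 _) ?_ (abs_nonneg _) zero_le_one
              rw [he]
              exact h3
            rwa [one_mul] at h4
        _ = n * δ := by rw [sum_const, card_range, nsmul_eq_mul]
    calc A / n * _ ≤ A / n * (n * δ) := mul_le_mul_of_nonneg_left h2 hAn.le
      _ = A * δ := by field_simp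
  obtain ⟨ε, hε⟩ : ∃ ε : ℝ, ε = 4 * A * r + A * δ := ⟨_, rfl⟩
  have hAr : 0 ≤ 4 * A * r := by positivity
  have hAδ : 0 ≤ A * δ := by positivity
  have hposR : ∀ x : ℝ,
      0 ≤ c 0 + ∑ k ∈ Icc 1 H, b k * Real.cos (2 * Real.pi * (k : ℝ) ^ 2 * x) + ε := by
    intro x
    obtain ⟨m, hm, h1⟩ := hlip x
    have h2 := hgrid m hm
    have h3 := hc.1 ((m : ℝ) / N)
    rw [abs_le] at h1 h2
    rw [hε]
    linarith [h1.1, h2.1]
  have hzero : 1 ≤ c 0 + ∑ k ∈ Icc 1 H, b k + ε := by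
    have h1 := hgrid 0 (mem_range.2 (by omega))
    have h2 : ∀ k, e k 0 = 1 := by
      intro k
      rw [he]
      simp
    simp only [h2, mul_one] at h1
    have h3 : cosPoly H c (((0 : ℕ) : ℝ) / N) = 1 := by
      rw [Nat.cast_zero, zero_div]
      exact hc.2
    rw [h3, abs_le] at h1
    rw [hε]
    linarith [h1.1]
  obtain ⟨W, hW⟩ : ∃ W : ℝ, W = c 0 + ∑ k ∈ Icc 1 H, b k + ε := ⟨_, rfl⟩
  rw [← hW] at hzero
  have hW0 : 0 < W := by linarith
  have hpoly : ∀ x, cosPoly H (fun k => (if k = 0 then c 0 + ε else b k) / W) x =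
      (c 0 + ∑ k ∈ Icc 1 H, b k * Real.cos (2 * Real.pi * (k : ℝ) ^ 2 * x) + ε) / W := by
    intro x
    unfold cosPoly
    have h1 : ∀ k ∈ Icc 1 H, (if k = 0 then c 0 + ε else b k) / W *
        Real.cos (2 * Real.pi * (k : ℝ) ^ 2 * x) =
        b k * Real.cos (2 * Real.pi * (k : ℝ) ^ 2 * x) / W := by
      intro k hk
      rw [if_neg (by have := mem_Icc.1 hk; omega)]
      ring
    rw [sum_congr rfl h1, ← sum_div]
    beta_reduce
    rw [if_pos rfl]
    ring
  have hc0 : 0 ≤ c 0 := by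
    rw [← int_cosPoly H c]
    exact intervalIntegral.integral_nonneg (by norm_num) fun x _ => hc.1 x
  refine ⟨fun k => (if k = 0 then c 0 + ε else b k) / W, ⟨fun x => ?_, ?_⟩, ?_, ?_⟩
  · rw [hpoly]
    exact div_nonneg (hposR x) hW0.le
  · rw [hpoly]
    simp only [mul_zero, Real.cos_zero, mul_one]
    rw [← hW, div_self hW0.ne']
  · calc _ ≤ ((range n).image f).card := by
          refine card_le_card fun k hk => ?_
          rw [mem_filter, mem_Icc] at hk
          by_contra hcon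
          apply hk.2
          have h1 : b k = 0 := by
            rw [hb]
            simp only
            rw [sum_eq_zero, mul_zero]
            intro l hl
            rw [if_neg]
            intro h
            exact hcon (mem_image.2 ⟨l, hl, h⟩)
          beta_reduce
          rw [if_neg (by omega), h1, zero_div]
      _ ≤ (range n).card := card_image_le
      _ = n := card_range n
  · simp only [if_true]
    have h1 : (c 0 + ε) / W ≤ c 0 + ε := div_le_self (by rw [hε]; linarith) hzero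
    have h2 : ε ≤ 14 * A * Real.sqrt (Real.log H / n) := by
      rw [hε]
      nlinarith
    linarith

end Pool.Agent.H.MP_b3c6db_nt
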