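import Pool.Agent.H.MP_b3c6db_nt.NK.MainK
import Pool.Agent.H.MP_b3c6db_nt.NF.Samp

/-! Upper bound for few non-zero coefficients: the polynomial of `deltaL1_upper_K` with
`A^4 (log H)^3 = n`, sampled by `sparse_sample`. -/

set_option autoImplicit false

namespace Pool.Agent.H.MP_b3c6db_nt

private lemma NFM_choice (l n : ℝ) (hl : 0 < l) (hn : l ^ 3 ≤ n) :
    ∃ A : ℝ, 1 ≤ A ∧ A ^ 4 * l ^ 3 = n ∧ (n * l) ^ (1 / 4 : ℝ) = A * l ∧
      A * Real.sqrt (l / n) = 1 / (A * l) := by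
  have hl3 : 0 < l ^ 3 := pow_pos hl 3
  have hn0 : 0 < n := lt_of_lt_of_le hl3 hn
  obtain ⟨q, hq⟩ : ∃ q : ℝ, q = n / l ^ 3 := ⟨_, rfl⟩
  have hq1 : 1 ≤ q := by
    rw [hq, le_div_iff₀ hl3, one_mul]
    exact hn
  have hq0 : 0 < q := by linarith
  have hqn : q * l ^ 3 = n := by
    rw [hq]
    exact div_mul_cancel₀ n hl3.ne'
  obtain ⟨A, hA⟩ : ∃ A : ℝ, A = Real.sqrt (Real.sqrt q) := ⟨_, rfl⟩
  have hs1 : 1 ≤ Real.sqrt q := Real.one_le_sqrt.2 hq1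
  have hA1 : 1 ≤ A := by
    rw [hA]
    exact Real.one_le_sqrt.2 hs1
  have hA0 : 0 < A := by linarith
  have hA2 : A ^ 2 = Real.sqrt q := by
    rw [hA]
    exact Real.sq_sqrt (Real.sqrt_nonneg q)
  have hA4 : A ^ 4 = q := by
    have h1 : A ^ 4 = (A ^ 2) ^ 2 := by ring
    rw [h1, hA2]
    exact Real.sq_sqrt hq0.le
  have h5 : A ^ 4 * l ^ 3 = n := by rw [hA4, hqn]
  refine ⟨A, hA1, h5, ?_, ?_⟩
  · have h6 : n * l = (A * l) ^ (4 : ℕ) := by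
      rw [← h5]
      ring
    have h7 : (1 / 4 : ℝ) = ((4 : ℕ) : ℝ)⁻¹ := by norm_num
    rw [h6, h7]
    exact Real.pow_rpow_inv_natCast (by positivity) (by norm_num)
  · have h7 : l / n = (1 / (A ^ 2 * l)) ^ 2 := by
      rw [← h5]
      field_simp
    rw [h7, Real.sqrt_sq (by positivity)]
    field_simp

private lemma NFM_bound (l n A : ℝ) (K : ℕ) (hl : 69 / 100 ≤ l) (hA : 1 ≤ A)
    (h4 : A ^ 4 * l ^ 3 = n) (hn : n ≤ (1 + l) ^ K) : A ≤ (1 + l) ^ (K + 3) := by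
  have h1 : A ≤ A ^ 4 := le_self_pow₀ hA (by norm_num)
  have hA4 : 0 ≤ A ^ 4 := by positivity
  have h2 : (69 / 100 : ℝ) ^ 3 ≤ l ^ 3 := pow_le_pow_left₀ (by norm_num) hl 3
  have h3 : A ^ 4 * (69 / 100 : ℝ) ^ 3 ≤ (1 + l) ^ K :=
    (mul_le_mul_of_nonneg_left h2 hA4).trans (h4.le.trans hn)
  have h5 : (169 / 100 : ℝ) ^ 3 ≤ (1 + l) ^ 3 := pow_le_pow_left₀ (by norm_num) (by linarith) 3
  have h6 : (0 : ℝ) < (1 + l) ^ K := by positivity
  have h7 : (1 + l) ^ K * (169 / 100 : ℝ) ^ 3 ≤ (1 + l) ^ (K + 3) := by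
    rw [pow_add]
    exact mul_le_mul_of_nonneg_left h5 h6.le
  have h8 : A ^ 4 ≤ (1 + l) ^ K * (169 / 100 : ℝ) ^ 3 := by
    have h9 : A ^ 4 * (69 / 100 : ℝ) ^ 3 * (169 / 100 : ℝ) ^ 3 ≤
        (1 + l) ^ K * (169 / 100 : ℝ) ^ 3 := mul_le_mul_of_nonneg_right h3 (by norm_num)
    have h10 : A ^ 4 * 1 ≤ A ^ 4 * ((69 / 100 : ℝ) ^ 3 * (169 / 100 : ℝ) ^ 3) :=
      mul_le_mul_of_nonneg_left (by norm_num) hA4
    linarith
  linarith

theorem deltaSp_upper (K : ℕ) : ∃ C : ℝ, 0 < C ∧ ∀ H : ℕ, 2 ≤ H → ∀ n : ℕ, 1 ≤ n →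
    (Real.log H) ^ 3 ≤ n → (n : ℝ) ≤ (1 + Real.log H) ^ K →
      deltaSp n H ≤ C / ((n : ℝ) * Real.log H) ^ (1 / 4 : ℝ) := by
  obtain ⟨C₁, hC₁, h1⟩ := deltaL1_upper_K (K + 3)
  obtain ⟨C₂, hC₂, h2⟩ := sparse_sample
  refine ⟨2 * C₁ + C₂, by positivity, fun H hH n hn hn3 hnK => ?_⟩
  have hH2 : (2 : ℝ) ≤ H := by exact_mod_cast hH
  have hl2 : (69 / 100 : ℝ) ≤ Real.log H := by
    have h3 : Real.log 2 ≤ Real.log H := Real.log_le_log (by norm_num) hH2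
    have h4 := Real.log_two_gt_d9
    linarith
  have hl : 0 < Real.log H := by linarith
  obtain ⟨A, hA1, hA4, hA5, hA6⟩ := NFM_choice (Real.log H) n hl hn3
  have hA0 : 0 < A := by linarith
  have hAl : 0 < A * Real.log H := mul_pos hA0 hl
  have h5 := h1 H hH A hA1 (NFM_bound (Real.log H) n A K hl2 hA1 hA4 hnK)
  have h6 : deltaL1 A H < 2 * C₁ / (A * Real.log H) := by
    refine lt_of_le_of_lt h5 ?_
    rw [div_lt_div_iff_of_pos_right hAl]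
    linarith
  unfold deltaL1 at h6
  have hne : {a : ℝ | ∃ c : ℕ → ℝ, Admissible H c ∧ ∑ k ∈ Finset.range (H + 1), |c k| ≤ A ∧
      c 0 = a}.Nonempty := by
    refine ⟨1, fun k => if k = 0 then 1 else 0, admissible_trivial H, ?_, by simp⟩
    have h7 : ∑ k ∈ Finset.range (H + 1), |(if k = 0 then (1 : ℝ) else 0)| = 1 := by
      rw [Finset.sum_eq_single 0]
      · simp
      · intro k _ hk
        rw [if_neg hk, abs_zero]
      · intro h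
        exact absurd (Finset.mem_range.2 (Nat.succ_pos H)) h
    rw [h7]
    exact hA1
  obtain ⟨a, ⟨c, hc, hcA, rfl⟩, hca⟩ := exists_lt_of_csInf_lt hne h6
  obtain ⟨c', hc', hcard, hc0⟩ := h2 H hH c hc n hn
  have h8 : deltaSp n H ≤ c' 0 := by
    unfold deltaSp
    exact csInf_le ⟨0, by rintro a ⟨c, hc, -, rfl⟩; exact cosPoly_zero_nonneg H c hc⟩
      ⟨c', hc', hcard, rfl⟩
  have h9 : ∑ k ∈ Finset.Icc 1 H, |c k| ≤ A := by
    refine le_trans (Finset.sum_le_sum_of_subset_of_nonneg ?_ fun k _ _ => abs_nonneg _) hcA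
    intro k hk
    rw [Finset.mem_Icc] at hk
    rw [Finset.mem_range]
    omega
  have h10 : C₂ * (∑ k ∈ Finset.Icc 1 H, |c k|) * Real.sqrt (Real.log H / n) ≤
      C₂ * A * Real.sqrt (Real.log H / n) :=
    mul_le_mul_of_nonneg_right (mul_le_mul_of_nonneg_left h9 hC₂.le) (Real.sqrt_nonneg _)
  have h11 : C₂ * A * Real.sqrt (Real.log H / n) = C₂ / (A * Real.log H) := by
    rw [mul_assoc, hA6, mul_one_div]
  rw [hA5, add_div]
  linarith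

end Pool.Agent.H.MP_b3c6db_nt
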