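import Pool.Agent.H.MP_b3c6db_nt.NF.Defs
import Pool.Agent.H.MP_b3c6db_nt.Coeff
import Pool.Agent.H.MP_b3c6db_nt.LowerFinal

/-! Small numbers of terms.

PROOF. `deltaSp_ge_inv`: `1 = T 0 = c 0 + ∑ c k ≤ c 0 + 2 n c 0`. `deltaSp_anti`: extend `c` by zero.
`deltaSp_small`: apply the bound for `(log H')^3 ≤ n ≤ (1 + log H')^3` at `H' = ⌊exp (n^(1/3))⌋ ≤ H`. -/

set_option autoImplicit false

namespace Pool.Agent.H.MP_b3c6db_nt

open Finset

private lemma Small_mem (n H : ℕ) : (1 : ℝ) ∈ {a : ℝ | ∃ c : ℕ → ℝ, Admissible H c ∧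
    ((Finset.Icc 1 H).filter (fun k => c k ≠ 0)).card ≤ n ∧ c 0 = a} := by
  refine ⟨fun k => if k = 0 then 1 else 0, admissible_trivial H, ?_, by simp⟩
  have h1 : (Finset.Icc 1 H).filter (fun k => (if k = 0 then (1 : ℝ) else 0) ≠ 0) = ∅ := by
    refine Finset.filter_eq_empty_iff.2 fun k hk => ?_
    rw [Finset.mem_Icc] at hk
    rw [if_neg (by omega)]
    simp
  rw [h1, Finset.card_empty]
  exact Nat.zero_le n

private lemma Small_bdd (n H : ℕ) : BddBelow {a : ℝ | ∃ c : ℕ → ℝ, Admissible H c ∧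
    ((Finset.Icc 1 H).filter (fun k => c k ≠ 0)).card ≤ n ∧ c 0 = a} :=
  ⟨0, by rintro a ⟨c, hc, -, rfl⟩; exact cosPoly_zero_nonneg H c hc⟩

theorem deltaSp_ge_inv (n H : ℕ) : 1 / (2 * (n : ℝ) + 1) ≤ deltaSp n H := by
  unfold deltaSp
  refine le_csInf ⟨1, Small_mem n H⟩ ?_
  rintro b ⟨c, hc, hcard, rfl⟩
  have h0 : 0 ≤ c 0 := cosPoly_zero_nonneg H c hc
  have h1 : c 0 + ∑ k ∈ Finset.Icc 1 H, c k = 1 := by
    have h := hc.2
    unfold cosPoly at h
    simpa using h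
  have h4 : ∑ k ∈ Finset.Icc 1 H, c k ≤ n * (2 * c 0) := by
    have h5 : ∑ k ∈ Finset.Icc 1 H, c k =
        ∑ k ∈ (Finset.Icc 1 H).filter (fun k => c k ≠ 0), c k := by
      rw [Finset.sum_filter]
      refine Finset.sum_congr rfl fun k _ => ?_
      split_ifs with hk
      · rfl
      · exact not_not.1 hk
    rw [h5]
    calc ∑ k ∈ (Finset.Icc 1 H).filter (fun k => c k ≠ 0), c k
        ≤ ∑ _k ∈ (Finset.Icc 1 H).filter (fun k => c k ≠ 0), 2 * c 0 := by
          refine Finset.sum_le_sum fun k hk => ?_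
          rw [Finset.mem_filter, Finset.mem_Icc] at hk
          exact (le_abs_self _).trans (coeff_bound H c hc.1 k (by omega) hk.1.2)
      _ = ((Finset.Icc 1 H).filter (fun k => c k ≠ 0)).card * (2 * c 0) := by
          rw [Finset.sum_const, nsmul_eq_mul]
      _ ≤ n * (2 * c 0) := by
          refine mul_le_mul_of_nonneg_right ?_ (by linarith)
          exact_mod_cast hcard
  have hn : (0 : ℝ) ≤ n := Nat.cast_nonneg n
  rw [div_le_iff₀ (by linarith)]
  linarith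

theorem deltaSp_anti (n : ℕ) {H' H : ℕ} (h : H' ≤ H) : deltaSp n H ≤ deltaSp n H' := by
  unfold deltaSp
  refine le_csInf ⟨1, Small_mem n H'⟩ ?_
  rintro b ⟨c, hc, hcard, rfl⟩
  refine csInf_le (Small_bdd n H) ⟨fun k => if k ≤ H' then c k else 0, ?_, ?_, ?_⟩
  · have hx : ∀ x : ℝ, cosPoly H (fun k => if k ≤ H' then c k else 0) x = cosPoly H' c x := by
      intro x
      unfold cosPoly
      show (if 0 ≤ H' then c 0 else 0) + ∑ k ∈ Finset.Icc 1 H, (if k ≤ H' then c k else 0) *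
        Real.cos (2 * Real.pi * (k : ℝ) ^ 2 * x) = _
      rw [if_pos (Nat.zero_le H')]
      congr 1
      have hsub : Finset.Icc 1 H' ⊆ Finset.Icc 1 H := Finset.Icc_subset_Icc le_rfl h
      rw [← Finset.sum_subset hsub (f := fun k : ℕ => (if k ≤ H' then c k else 0) *
        Real.cos (2 * Real.pi * (k : ℝ) ^ 2 * x))]
      · refine Finset.sum_congr rfl fun k hk => ?_
        rw [Finset.mem_Icc] at hk
        rw [if_pos hk.2]
      · intro k hk hk'
        rw [Finset.mem_Icc] at hk hk'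
        have h1 : ¬ k ≤ H' := fun h2 => hk' ⟨hk.1, h2⟩
        simp only [if_neg h1, zero_mul]
    exact ⟨fun x => by rw [hx]; exact hc.1 x, by rw [hx]; exact hc.2⟩
  · refine le_trans (Finset.card_le_card ?_) hcard
    intro k hk
    rw [Finset.mem_filter, Finset.mem_Icc] at hk ⊢
    obtain ⟨⟨h1, h2⟩, h3⟩ := hk
    change (if k ≤ H' then c k else 0) ≠ 0 at h3
    by_cases h4 : k ≤ H'
    · rw [if_pos h4] at h3
      exact ⟨⟨h1, h4⟩, h3⟩
    · rw [if_neg h4] at h3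
      exact absurd rfl h3
  · exact if_pos (Nat.zero_le H')

theorem deltaSp_small (hU : ∃ C : ℝ, 0 < C ∧ ∀ H : ℕ, 2 ≤ H → ∀ n : ℕ, 1 ≤ n →
      (Real.log H) ^ 3 ≤ n → (n : ℝ) ≤ (1 + Real.log H) ^ 3 →
      deltaSp n H ≤ C / ((n : ℝ) * Real.log H) ^ (1 / 4 : ℝ)) :
    ∃ C : ℝ, 0 < C ∧ ∀ H : ℕ, 2 ≤ H → ∀ n : ℕ, 1 ≤ n → (n : ℝ) ≤ (Real.log H) ^ 3 →
      deltaSp n H ≤ C / (n : ℝ) ^ (1 / 3 : ℝ) := by
  obtain ⟨C, hC, hU⟩ := hU
  refine ⟨2 * C, by positivity, fun H hH n hn hnH => ?_⟩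
  have hH2 : (2 : ℝ) ≤ H := by exact_mod_cast hH
  have hn1 : (1 : ℝ) ≤ n := by exact_mod_cast hn
  have hn0 : (0 : ℝ) ≤ n := by linarith
  obtain ⟨t, ht⟩ : ∃ t : ℝ, t = (n : ℝ) ^ (1 / 3 : ℝ) := ⟨_, rfl⟩
  have ht3 : t ^ 3 = n := by
    rw [ht, ← Real.rpow_natCast, ← Real.rpow_mul hn0]
    norm_num
  have ht1 : 1 ≤ t := by
    rw [ht]
    exact Real.one_le_rpow hn1 (by norm_num)
  have hlH : 0 < Real.log H := Real.log_pos (by linarith)
  have htH : t ≤ Real.log H := by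
    have : t ^ 3 ≤ (Real.log H) ^ 3 := by rw [ht3]; exact hnH
    exact le_of_pow_le_pow_left₀ (by norm_num) hlH.le this
  have hexp : Real.exp t ≤ H := by
    calc Real.exp t ≤ Real.exp (Real.log H) := Real.exp_le_exp.2 htH
      _ = H := Real.exp_log (by linarith)
  have he : (2.7 : ℝ) ≤ Real.exp t := by
    have h1 : Real.exp 1 ≤ Real.exp t := Real.exp_le_exp.2 ht1
    have h2 := Real.exp_one_gt_d9
    linarith
  obtain ⟨H', hH'⟩ : ∃ H' : ℕ, H' = ⌊Real.exp t⌋₊ := ⟨_, rfl⟩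
  have hf1 : (H' : ℝ) ≤ Real.exp t := by
    rw [hH']
    exact Nat.floor_le (Real.exp_pos t).le
  have hf2 : Real.exp t < H' + 1 := by
    rw [hH']
    exact Nat.lt_floor_add_one _
  have hH'2 : 2 ≤ H' := by
    rw [hH']
    refine Nat.le_floor ?_
    push_cast
    linarith
  have hH'H : H' ≤ H := by
    have : (H' : ℝ) ≤ H := hf1.trans hexp
    exact_mod_cast this
  have hH'r : (2 : ℝ) ≤ H' := by exact_mod_cast hH'2
  have hl1 : Real.log H' ≤ t := by
    calc Real.log H' ≤ Real.log (Real.exp t) := Real.log_le_log (by linarith) hf1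
      _ = t := Real.log_exp t
  have hl0 : 0 < Real.log H' := Real.log_pos (by linarith)
  have hl2 : t - 1 ≤ Real.log H' := by
    rw [Real.le_log_iff_exp_le (by linarith), Real.exp_sub, div_le_iff₀ (Real.exp_pos 1)]
    have h2 := Real.exp_one_gt_d9
    have h3 : (H' : ℝ) * 2.7 ≤ H' * Real.exp 1 := mul_le_mul_of_nonneg_left (by linarith) (by linarith)
    linarith
  have hl3 : t / 4 ≤ Real.log H' := by
    rcases le_or_gt t (4 / 3) with h | h
    · have h1 : Real.log 2 ≤ Real.log H' := Real.log_le_log (by norm_num) hH'r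
      have h2 := Real.log_two_gt_d9
      linarith
    · linarith
  have h1 := hU H' hH'2 n hn (by
      rw [← ht3]
      exact pow_le_pow_left₀ hl0.le hl1 3) (by
      rw [← ht3]
      exact pow_le_pow_left₀ (by linarith) (by linarith) 3)
  have h2 : t / 2 ≤ ((n : ℝ) * Real.log H') ^ (1 / 4 : ℝ) := by
    have h3 : (t / 2) ^ 4 ≤ (n : ℝ) * Real.log H' := by
      have h4 : (n : ℝ) * (t / 4) ≤ n * Real.log H' := mul_le_mul_of_nonneg_left hl3 hn0
      have h5 : (t / 2) ^ 4 ≤ (n : ℝ) * (t / 4) := by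
        rw [← ht3]
        have h6 : 0 ≤ t ^ 4 := by positivity
        have h7 : (t / 2) ^ 4 = t ^ 4 / 16 := by ring
        have h8 : t ^ 3 * (t / 4) = t ^ 4 / 4 := by ring
        rw [h7, h8]
        linarith
      exact h5.trans h4
    have h4 : ((t / 2) ^ 4) ^ (1 / 4 : ℝ) = t / 2 := by
      rw [← Real.rpow_natCast, ← Real.rpow_mul (by linarith)]
      norm_num
    rw [← h4]
    exact Real.rpow_le_rpow (by positivity) h3 (by norm_num)
  have h3 : 0 < t / 2 := by linarith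
  calc deltaSp n H ≤ deltaSp n H' := deltaSp_anti n hH'H
    _ ≤ C / ((n : ℝ) * Real.log H') ^ (1 / 4 : ℝ) := h1
    _ ≤ C / (t / 2) := div_le_div_of_nonneg_left hC.le h3 h2
    _ = 2 * C / (n : ℝ) ^ (1 / 3 : ℝ) := by
        rw [← ht]
        field_simp

end Pool.Agent.H.MP_b3c6db_nt
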